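import Pool.Agent.H93.EN.Targets4
import Pool.Agent.H93.BL.Final

/-!
# Row RO of the board en_modules
-/

namespace Pool.Agent.H2.EN

open MeasureTheory Set Metric Filter Topology Pool.Agent.H93.EN
open Pool.Agent.H93.BL hiding T_B1 T_B2 T_B3 T_SB T_SC

theorem ro (h1 : T_PRO) (h2 : T_HC) : T_RO := by
  intro ι _ P E U hU hUΩ y hy w hw hRU
  rcases hRU with ⟨r, hr0, hrU, hrΩ⟩ | ⟨z, hz, ⟨t, ht, hpos, hseg⟩, hdir, hPR⟩
  · -- the ray meets `U` inside the table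
    have hΩ : ∀ r' ∈ Icc (0 : ℝ) r, y + (r' : ℂ) * w ∈ P.Ω := by
      intro r' hr'
      rcases eq_or_lt_of_le hr'.1 with h | h
      · rw [← h]; simpa using hy
      · exact hrΩ r' ⟨h, hr'.2⟩
    have hcont : Continuous (fun p : (ℂ × ℂ) × ℝ => p.1.1 + (p.2 : ℂ) * p.1.2) := by
      fun_prop
    have hA : ∀ᶠ p : ℂ × ℂ in 𝓝 (y, w), ∀ r' ∈ Icc (0 : ℝ) r, p.1 + (r' : ℂ) * p.2 ∈ P.Ω := by
      apply isCompact_Icc.eventually_forall_of_forall_eventually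
      intro r' hr'
      have hmem : y + (r' : ℂ) * w ∈ P.Ω := hΩ r' hr'
      have := hcont.continuousAt (x := ((y, w), r'))
      exact this (P.isOpen.mem_nhds hmem)
    have hcont2 : Continuous (fun p : ℂ × ℂ => p.1 + (r : ℂ) * p.2) := by fun_prop
    have hB : ∀ᶠ p : ℂ × ℂ in 𝓝 (y, w), p.1 + (r : ℂ) * p.2 ∈ U :=
      hcont2.continuousAt (x := (y, w)) (hU.mem_nhds hrU)
    obtain ⟨ε, hε, hball⟩ := Metric.eventually_nhds_iff.1 (hA.and hB)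
    refine ⟨ε, hε, fun y' w' hy' _ hw' => Or.inl ?_⟩
    have hd : dist (y', w') (y, w) < ε := by
      rw [Prod.dist_eq]
      exact max_lt hy' hw'
    obtain ⟨h3, h4⟩ := hball hd
    exact ⟨r, hr0, h4, fun r' hr' => h3 r' ⟨hr'.1.le, hr'.2⟩⟩
  · -- the first reflection is stable
    obtain ⟨η, hη, hbox⟩ := h1 ι P E U hU hUΩ z hz hPR
    obtain ⟨ε, hε, hnear⟩ := h2 ι P y w z t hy hw hz ht hpos hseg hdir η hη
    refine ⟨ε, hε, fun y' w' hy' hw1 hw' => Or.inr ?_⟩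
    obtain ⟨s, φ, t', hs, hφ, ht', hph, hpos', hseg', hdir'⟩ := hnear y' w' hy' hw1 hw'
    exact ⟨(z.1, s, φ), hph, ⟨t', ht', hpos', hseg'⟩, hdir', (hbox s φ hs hφ).2⟩

end Pool.Agent.H2.EN
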