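import Pool.Agent.H65.EN.Targets
import Pool.Agent.H31.LV.Basic

/-!
# ZER: a complete sum which vanishes (row of enx_modules, helper2)
-/

set_option autoImplicit false

open Finset MeasureTheory

namespace Pool.Agent.H2.EN

open Pool.Agent.H24.CL Pool.Agent.H24.LV Pool.Agent.H31.LV Pool.Agent.H50.LV Pool.Agent.H65.EN

/-- a sum over a period does not change under a shift -/
theorem zer_shift (q : ℕ) (g : ℕ → ℂ) (hg : ∀ z, g (z + q) = g z) (c : ℕ) :
    ∑ z ∈ range q, g (z + c) = ∑ z ∈ range q, g z := by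
  induction c with
  | zero => simp
  | succ c ih =>
    rw [← ih]
    have h1 := Finset.sum_range_succ' (fun z => g (z + c)) q
    have h2 := Finset.sum_range_succ (fun z => g (z + c)) q
    have h3 : g (q + c) = g (0 + c) := by
      rw [Nat.zero_add, Nat.add_comm q c]; exact hg c
    have h4 : ∑ z ∈ range q, g (z + 1 + c) = ∑ z ∈ range q, g (z + c) := by
      have h5 := h1.symm.trans h2
      rw [h3] at h5
      exact add_right_cancel h5
    rw [← h4]
    refine Finset.sum_congr rfl fun z _ => ?_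
    congr 1
    ring

/-- the phase depends on the residue class only -/
theorem zer_mod (q : ℕ) (hq : 1 ≤ q) (x y : ℕ) (h : x ≡ y [MOD q]) :
    ee ((x : ℝ) / q) = ee ((y : ℝ) / q) := by
  obtain ⟨n, hn⟩ := (Nat.modEq_iff_dvd.mp h)
  have hq' : (q : ℝ) ≠ 0 := by positivity
  refine ee_congr _ _ (-n) ?_
  have h1 : (y : ℝ) - x = q * n := by exact_mod_cast hn
  field_simp
  push_cast
  linarith

/-- ZER: a sum which vanishes -/
theorem pf_ZER : T_ZER := by
  intro d p m a hp hm ha h0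
  obtain ⟨i0, hi0, hpa⟩ := h0
  have hp0 : 0 < p := hp.pos
  have hq : 1 ≤ p ^ m := Nat.one_le_iff_ne_zero.mpr (pow_ne_zero _ hp.ne_zero)
  set P : ℕ := p ^ (m - 1) with hP
  have hPm : p * P = p ^ m := by
    rw [hP, ← pow_succ']
    congr 1
    omega
  let F : ℕ → ℕ := fun z => ∑ i : Fin d, a i * z ^ (i.val + 1)
  -- congruences
  have hper : ∀ z, F (z + p ^ m) ≡ F z [MOD p ^ m] := by
    intro z
    refine Nat.ModEq.sum fun i _ => ?_
    refine Nat.ModEq.mul_left _ (Nat.ModEq.pow _ ?_)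
    simp [Nat.ModEq]
  have hsh : ∀ z, F (z + P) ≡ F z + a i0 * P [MOD p ^ m] := by
    intro z
    have h1 : F z + a i0 * P = ∑ i : Fin d, (a i * z ^ (i.val + 1) + if i = i0 then a i0 * P else 0) := by
      rw [Finset.sum_add_distrib, Finset.sum_ite_eq' Finset.univ i0 (fun _ => a i0 * P)]
      simp [F]
    rw [h1]
    refine Nat.ModEq.sum fun i _ => ?_
    by_cases hi : i = i0
    · subst hi
      rw [if_pos rfl, hi0]
      have h2 : a i * (z + P) ^ (0 + 1) = a i * z ^ (0 + 1) + a i * P := by ring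
      rw [h2]
    · rw [if_neg hi, Nat.add_zero]
      have hi' : i.val ≠ 0 := by
        intro h
        apply hi
        apply Fin.ext
        rw [h, hi0]
      obtain ⟨b, hb⟩ := ha i hi'
      have h2 : (z + P) ^ (i.val + 1) ≡ z ^ (i.val + 1) [MOD P] := by
        refine Nat.ModEq.pow _ ?_
        simp [Nat.ModEq]
      have h3 := (h2.mul_left b).mul_left' p
      rw [hPm] at h3
      rw [hb, Nat.mul_assoc, Nat.mul_assoc]
      exact h3
  -- the phases
  have hg : ∀ z : ℕ, e ((((∑ i : Fin d, (((a i : ℕ) : ℤ) : ℝ) * (z : ℝ) ^ (i.val + 1)) /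
      ((p ^ m : ℕ) : ℝ) : ℝ)) : UnitAddCircle) = ee ((F z : ℝ) / ((p ^ m : ℕ) : ℝ)) := by
    intro z
    rw [e_coe]
    congr 2
    simp [F]
  have hSq : Sq (p ^ m) (fun i => (a i : ℤ)) =
      (1 / ((p ^ m : ℕ) : ℂ)) * ∑ z ∈ range (p ^ m), ee ((F z : ℝ) / ((p ^ m : ℕ) : ℝ)) := by
    unfold Sq
    congr 1
    exact Finset.sum_congr rfl fun z _ => hg z
  rw [hSq]
  set S : ℂ := ∑ z ∈ range (p ^ m), ee ((F z : ℝ) / ((p ^ m : ℕ) : ℝ)) with hS
  have hqr : ((p ^ m : ℕ) : ℝ) ≠ 0 := by positivity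
  have h5 : ee ((a i0 : ℝ) / p) * S = S := by
    have h6 := zer_shift (p ^ m) (fun z => ee ((F z : ℝ) / ((p ^ m : ℕ) : ℝ)))
      (fun z => zer_mod _ hq _ _ (hper z)) P
    rw [hS]
    conv_rhs => rw [← h6]
    rw [Finset.mul_sum]
    refine Finset.sum_congr rfl fun z _ => ?_
    have h7 := zer_mod _ hq _ _ (hsh z)
    rw [h7, ← ee_add]
    congr 1
    have hPm' : (p : ℝ) * (P : ℝ) = ((p ^ m : ℕ) : ℝ) := by exact_mod_cast hPm
    have hpr : (p : ℝ) ≠ 0 := by positivity
    push_cast at hPm' ⊢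
    rw [← hPm']
    have hPr : (P : ℝ) ≠ 0 := by
      have : P ≠ 0 := by rw [hP]; positivity
      exact_mod_cast this
    field_simp
    ring
  have h8 : ee ((a i0 : ℝ) / p) ≠ 1 := by
    intro h
    unfold ee at h
    rw [Complex.exp_eq_one_iff] at h
    obtain ⟨n, hn⟩ := h
    have hpi : (2 * (Real.pi : ℂ) * Complex.I) ≠ 0 := by
      simp [Real.pi_ne_zero]
    have h9 : (((a i0 : ℝ) / p : ℝ) : ℂ) = n := by
      have h10 : (2 * (Real.pi : ℂ) * Complex.I) * (((a i0 : ℝ) / p : ℝ) : ℂ) =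
          (2 * (Real.pi : ℂ) * Complex.I) * n := by
        have h11 : ((2 * Real.pi * ((a i0 : ℝ) / p) : ℝ) : ℂ) * Complex.I =
          (2 * (Real.pi : ℂ) * Complex.I) * (((a i0 : ℝ) / p : ℝ) : ℂ) := by
          push_cast; ring
        rw [← h11, hn]; ring
      exact mul_left_cancel₀ hpi h10
    have h12 : ((a i0 : ℝ) / p : ℝ) = (n : ℝ) := by exact_mod_cast h9
    have hpr : (p : ℝ) ≠ 0 := by positivity
    have h13 : (a i0 : ℝ) = n * p := by field_simp at h12; linarith
    have h14 : (a i0 : ℤ) = n * p := by exact_mod_cast h13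
    apply hpa
    have h15 : (p : ℤ) ∣ (a i0 : ℤ) := ⟨n, by rw [h14]; ring⟩
    exact_mod_cast h15
  have h16 : (ee ((a i0 : ℝ) / p) - 1) * S = 0 := by rw [sub_mul, h5, one_mul, sub_self]
  have h17 : S = 0 := by
    rcases mul_eq_zero.mp h16 with h | h
    · exact absurd (sub_eq_zero.mp h) h8
    · exact h
  rw [h17, mul_zero]

end Pool.Agent.H2.EN
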